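import Pool.Agent.Q131.CM.Lip

/-!
# MP_28b04d_gt, Q1: smoothing Lipschitz paths of maps with nonsingular increments

Q1 asks whether every diffeomorphism of `CP²` that acts trivially on homology is smoothly isotopic
to the identity.  Such a diffeomorphism is, by the theorems of Perron and Quinn, isotopic to the
identity through homeomorphisms; the question is whether the path can be made smooth.  The theorem
treats Lipschitz paths, stated for all closed smooth manifolds `X` and all Hausdorff manifolds `Y`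
of the same dimension `n` (for Q1 `X = Y = CP²`, `n = 4`).

Let `f_t : X → Y`, `0 ≤ t ≤ 1`, be a path of continuous maps such that `f_0` is a diffeomorphism
and `f_1` a local diffeomorphism, and such that, in smooth coordinates around every `x` and `f_t x`,
for the times near `t`, the path is Lipschitz in both variables and for every direction `v` the
increments `f_s q - f_s p` with `q - p` nearly parallel to `v` lie in a half space
`ℓ w > r ‖q - p‖`.  (By a separation argument this is Clarke's condition: the convex hull of the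
limits at `(t, x)` of the differentials of the maps `f_s` consists of invertible matrices.)  No map
`f_t` with `0 < t < 1` has to be differentiable, and nothing is assumed on injectivity or on the
time derivative.  Then `f_0` and `f_1` are diffeomorphisms joined by a smooth isotopy, which can be
taken in any neighbourhood of the given path, up to a reparametrization of the time.

The method: on `ℝ × X` the map `(t, x) ↦ (t, f_t x)` is cone monotone in product coordinates; it is
mollified in overlapping boxes, one after the other, with an even kernel, which keeps the time; the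
means of increments stay in the cones.  The slices of the smooth map are local homeomorphisms of
`X` homotopic to `f_0`, and therefore bijective by the homotopy lifting property.
-/

set_option autoImplicit false

open Set Filter Topology Metric Function
open scoped Manifold ContDiff

noncomputable section

namespace Pool.Agent.Results.MP_28b04d_gt.LipschitzIsotopy

/-- `ℝ^n` -/
abbrev R (n : ℕ) : Type := EuclideanSpace ℝ (Fin n)

section defs

variable (n : ℕ) {X Y : Type} [TopologicalSpace X] [TopologicalSpace Y]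
  [ChartedSpace (R n) X] [ChartedSpace (R n) Y]

/-- `f` is a smooth local diffeomorphism at `x` -/
def LocDiff (f : X → Y) (x : X) : Prop := IsLocalDiffeomorphAt (𝓡 n) (𝓡 n) ∞ f x

/-- `φ` is a diffeomorphism -/
def IsDiffeo (φ : X → Y) : Prop := ∃ Φ : X ≃ₘ^∞⟮𝓡 n, 𝓡 n⟯ Y, ∀ x, Φ x = φ x

/-- the path `t ↦ f (t, ·)`, `0 ≤ t ≤ 1`, is Lipschitz near `(t, x)`, in the smooth coordinates
`A` around `x` and `B` around `f (t, x)` -/
def LipIn (A : R n → X) (B : Y → R n) (f : ℝ × X → Y) (t : ℝ) : Prop :=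
  ∃ L r : ℝ, 0 < r ∧ ∀ s ∈ Icc (0 : ℝ) 1, ∀ s' ∈ Icc (0 : ℝ) 1, |s - t| ≤ r → |s' - t| ≤ r →
    ∀ p q : R n, ‖p‖ ≤ r → ‖q‖ ≤ r →
      ‖B (f (s', A q)) - B (f (s, A p))‖ ≤ L * (|s' - s| + ‖q - p‖)

/-- near the time `t` the increments of the maps of the path, in the coordinates `A` and `B`, are
nonsingular in all directions -/
def NonsingularIn (A : R n → X) (B : Y → R n) (f : ℝ × X → Y) (t : ℝ) : Prop :=
  ∀ v : R n, v ≠ 0 → ∃ (r : ℝ) (ℓ : R n →L[ℝ] ℝ), 0 < r ∧
    ∀ s ∈ Icc (0 : ℝ) 1, |s - t| ≤ r → ∀ p q : R n, ‖p‖ ≤ r → ‖q‖ ≤ r →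
      ∀ σ : ℝ, 0 < σ → ‖q - p - σ • v‖ ≤ r * σ → r * σ < ℓ (B (f (s, A q)) - B (f (s, A p)))

/-- near `(t, x)` the path is Lipschitz with nonsingular increments, in some smooth coordinates -/
def LipNonsingular (f : ℝ × X → Y) (t : ℝ) (x : X) : Prop :=
  ∃ (A : R n → X) (B : Y → R n), A 0 = x ∧ LocDiff n A 0 ∧ LocDiff n B (f (t, x)) ∧
    LipIn n A B f t ∧ NonsingularIn n A B f t

end defs

/-- the retraction of the line onto the unit interval -/
def clamp (t : ℝ) : ℝ := max 0 (min 1 t)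

theorem clamp_mem (t : ℝ) : clamp t ∈ Icc (0 : ℝ) 1 :=
  ⟨le_max_left _ _, max_le zero_le_one (min_le_left _ _)⟩

theorem clamp_cont : Continuous clamp := by
  unfold clamp
  fun_prop

theorem clamp_mono : Monotone clamp := fun _ _ h => max_le_max le_rfl (min_le_min le_rfl h)

theorem clamp_lip (s t : ℝ) : |clamp s - clamp t| ≤ |s - t| := by
  unfold clamp
  rcases max_cases (0 : ℝ) (min 1 s) with ⟨h1, h2⟩ | ⟨h1, h2⟩ <;>
  rcases max_cases (0 : ℝ) (min 1 t) with ⟨h3, h4⟩ | ⟨h3, h4⟩ <;>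
  rcases min_cases (1 : ℝ) s with ⟨h5, h6⟩ | ⟨h5, h6⟩ <;>
  rcases min_cases (1 : ℝ) t with ⟨h7, h8⟩ | ⟨h7, h8⟩ <;>
  rw [h1, h3] <;>
  rcases abs_cases (s - t) with ⟨h9, h10⟩ | ⟨h9, h10⟩ <;>
  rw [h9, abs_le] <;> constructor <;> linarith

theorem clamp_zero {t : ℝ} (h : t ≤ 0) : clamp t = 0 := by
  unfold clamp
  exact max_eq_left ((min_le_right _ _).trans h)

theorem clamp_one {t : ℝ} (h : 1 ≤ t) : clamp t = 1 := by
  unfold clamp
  rw [min_eq_left h]
  exact max_eq_right zero_le_one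

/-- A Lipschitz path of maps with nonsingular increments between diffeomorphisms of closed
manifolds can be replaced by a smooth isotopy, near the path. -/
theorem result (n : ℕ) (X Y : Type) [TopologicalSpace X] [T2Space X] [CompactSpace X]
    [ChartedSpace (R n) X] [IsManifold (𝓡 n) ∞ X]
    [TopologicalSpace Y] [T2Space Y] [ChartedSpace (R n) Y] [IsManifold (𝓡 n) ∞ Y]
    (f : ℝ × X → Y) (hf : ContinuousOn f (Icc (0 : ℝ) 1 ×ˢ univ))
    (hx : ∀ t ∈ Icc (0 : ℝ) 1, ∀ x, LipNonsingular n f t x)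
    (h0 : IsDiffeo n (fun x => f (0, x))) (h1 : ∀ x, LocDiff n (fun x => f (1, x)) x)
    (O : Set ((ℝ × X) × Y)) (hO : IsOpen O)
    (hfO : ∀ t ∈ Icc (0 : ℝ) 1, ∀ x, ((t, x), f (t, x)) ∈ O) :
    ∃ (K : ℝ × X → Y) (θ : ℝ → ℝ),
      ContMDiff ((𝓘(ℝ, ℝ)).prod (𝓡 n)) (𝓡 n) ∞ K ∧ (∀ t, IsDiffeo n (fun x => K (t, x))) ∧
      (∀ x, K (0, x) = f (0, x)) ∧ (∀ x, K (1, x) = f (1, x)) ∧
      Continuous θ ∧ Monotone θ ∧ θ 0 = 0 ∧ θ 1 = 1 ∧ (∀ t, θ t ∈ Icc (0 : ℝ) 1) ∧
      ∀ t x, ((θ t, x), K (t, x)) ∈ O := by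
  obtain ⟨Φ₀, e0⟩ := h0
  have e0' : (fun x => f (0, x)) = Φ₀ := funext fun x => (e0 x).symm
  obtain ⟨F, hF⟩ : ∃ F : ℝ × X → Y, ∀ t x, F (t, x) = f (clamp t, x) :=
    ⟨fun q => f (clamp q.1, q.2), fun _ _ => rfl⟩
  have hF' : F = fun q => f (clamp q.1, q.2) := funext fun q => hF q.1 q.2
  have hFc : Continuous F := by
    rw [hF']
    refine hf.comp_continuous ?_ fun q => ⟨clamp_mem _, mem_univ _⟩
    exact (clamp_cont.comp continuous_fst).prodMk continuous_snd
  have c0 : clamp 0 = 0 := clamp_zero le_rfl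
  have c1 : clamp 1 = 1 := clamp_one le_rfl
  have hF0 : (fun x => F (0, x)) = Φ₀ := by
    rw [← e0']
    funext x
    rw [hF, c0]
  have hF1 : (fun x => F (1, x)) = fun x => f (1, x) := by
    funext x
    rw [hF, c1]
  have hL : ∀ (t : ℝ) (x : X), Pool.Agent.Q131.CM.LipCone n F t x := by
    intro t x
    obtain ⟨A, B, hA0, hA, hB, ⟨L, r, hr, hLip⟩, hN⟩ := hx (clamp t) (clamp_mem t) x
    refine ⟨A, B, |L|, r, hA0, hA, by rw [hF]; exact hB, hr, ?_, ?_⟩
    · intro s s' hs hs' p q hp hq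
      rw [hF, hF]
      have h2 := hLip (clamp s) (clamp_mem s) (clamp s') (clamp_mem s')
        ((clamp_lip s t).trans hs) ((clamp_lip s' t).trans hs') p q hp hq
      refine h2.trans ?_
      have h3 := clamp_lip s' s
      have h4 : 0 ≤ |clamp s' - clamp s| + ‖q - p‖ := by positivity
      calc L * (|clamp s' - clamp s| + ‖q - p‖) ≤ |L| * (|clamp s' - clamp s| + ‖q - p‖) :=
            mul_le_mul_of_nonneg_right (le_abs_self _) h4
        _ ≤ |L| * (|s' - s| + ‖q - p‖) :=
            mul_le_mul_of_nonneg_left (by linarith) (abs_nonneg _)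
    · intro v hv
      obtain ⟨ρ, ℓ, hρ, hℓ⟩ := hN v hv
      refine ⟨ρ, ℓ, hρ, fun s hs p q hp hq σ hσ hpq => ?_⟩
      rw [hF, hF]
      exact hℓ (clamp s) (clamp_mem s) ((clamp_lip s t).trans hs) p q hp hq σ hσ hpq
  -- the neighbourhood of the graph
  obtain ⟨O', hO'⟩ : ∃ O' : Set (Pool.Agent.Y434.CI.Pr X × Pool.Agent.Y434.CI.Pr Y),
      O' = {p | ((clamp (Pool.Agent.Y434.CI.un p.1).1, (Pool.Agent.Y434.CI.un p.1).2),
        (Pool.Agent.Y434.CI.un p.2).2) ∈ O} := ⟨_, rfl⟩
  have hO'o : IsOpen O' := by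
    rw [hO']
    refine hO.preimage ?_
    have u1 : Continuous (fun p : Pool.Agent.Y434.CI.Pr X × Pool.Agent.Y434.CI.Pr Y =>
        Pool.Agent.Y434.CI.un p.1) := Pool.Agent.Y434.CI.cont_un.comp continuous_fst
    have u2 : Continuous (fun p : Pool.Agent.Y434.CI.Pr X × Pool.Agent.Y434.CI.Pr Y =>
        Pool.Agent.Y434.CI.un p.2) := Pool.Agent.Y434.CI.cont_un.comp continuous_snd
    exact ((clamp_cont.comp (continuous_fst.comp u1)).prodMk (continuous_snd.comp u1)).prodMk
      (continuous_snd.comp u2)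
  have hFO : ∀ p : Pool.Agent.Y434.CI.Pr X, (p, Pool.Agent.Y434.CI.lft F p) ∈ O' := by
    intro p
    rw [hO']
    have h2 := hfO (clamp (Pool.Agent.Y434.CI.un p).1) (clamp_mem _) (Pool.Agent.Y434.CI.un p).2
    rw [← hF] at h2
    exact h2
  obtain ⟨ρ, K, hρ, k1, k2, k3, k4, k5, k6⟩ := Pool.Agent.Q131.CM.isoT F hFc
    (fun t ht x => by rw [hF, hF, clamp_zero ht, c0])
    (fun t ht x => by rw [hF, hF, clamp_one ht, c1])
    (by rw [hF0]; exact Φ₀.bijective)
    (fun x => by rw [hF0]; exact Φ₀.isLocalDiffeomorph x)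
    (fun x => by rw [hF1]; exact h1 x)
    (fun p => Or.inr (hL (Pool.Agent.Y434.CI.un p).1 (Pool.Agent.Y434.CI.un p).2).cmonT) O' hO'o hFO
  refine ⟨K, fun t => clamp (-ρ + 2 * ρ * t), k1, fun t => ?_, fun x => ?_, fun x => ?_, ?_, ?_,
    ?_, ?_, fun t => clamp_mem _, fun t x => ?_⟩
  · have hl : IsLocalDiffeomorph (𝓡 n) (𝓡 n) ∞ (fun x => K (t, x)) := k3 t
    exact ⟨hl.diffeomorphOfBijective (k2 t), fun x => rfl⟩
  · rw [k4 x, hF, c0]
  · rw [k5 x, hF, c1]
  · exact clamp_cont.comp (by fun_prop)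
  · intro s t hst
    apply clamp_mono
    have h2 : 2 * ρ * s ≤ 2 * ρ * t := mul_le_mul_of_nonneg_left hst (by linarith)
    linarith
  · change clamp (-ρ + 2 * ρ * 0) = 0
    rw [mul_zero, add_zero]
    exact clamp_zero (by linarith)
  · change clamp (-ρ + 2 * ρ * 1) = 1
    have h2 : -ρ + 2 * ρ * 1 = ρ := by ring
    rw [h2]
    exact clamp_one hρ
  · have h2 := k6 t x
    rw [hO'] at h2
    exact h2

end Pool.Agent.Results.MP_28b04d_gt.LipschitzIsotopy
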