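import Pool.Agent.Y522.NA.AllC
import Pool.Agent.Q131.FT.Main

/-!
# MP_28b04d_gt, Q1: homotopies through countable-to-one maps without folds

Q1 asks whether every diffeomorphism of `CP²` that acts trivially on homology is smoothly isotopic
to the identity.  Such a diffeomorphism is homotopic to the identity, so there is a smooth homotopy
`f_t`; the question is whether the maps `f_t` can be chosen to be diffeomorphisms.  The theorem
treats homotopies through maps which are not assumed to be injective.  It is stated for all closed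
smooth manifolds `X`, `Y` of the same dimension `m + 1` (for Q1 `X = Y = CP²`, `m = 3`): let `f_t`,
`0 ≤ t ≤ 1`, be a family of maps `X → Y`, smooth in both variables, such that `f_0` is a
diffeomorphism and `f_1` a local diffeomorphism.  If the derivatives of the maps `f_t` have rank at
least `m`, and near every point where `f_t` is not a local diffeomorphism it is countable-to-one and
its Jacobian determinant does not change sign (there are no folds), then `f_1` is a diffeomorphism
which is smoothly isotopic to `f_0`.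

The method: near a critical point of `f_t` the map has `m` coordinates which are coordinates of `X`,
and the remaining one is weakly monotone along their fibres, by the condition on the Jacobian; if it
were not strictly monotone, a fibre of `f_t` would contain an arc.  So `f_t` is locally injective,
hence a covering map, and since it is homotopic to `f_0` it is a homeomorphism.  Then the family is
smoothed in space-time boxes (`Pool.Agent.Y522.NA.coi_final`).
-/

set_option autoImplicit false

open Set Filter Topology Metric Function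
open scoped Manifold ContDiff

noncomputable section

namespace Pool.Agent.Results.MP_28b04d_gt.NoFoldIsotopy

/-- `ℝ^n` -/
abbrev R (n : ℕ) : Type := EuclideanSpace ℝ (Fin n)

/-- the linear map `L` of `ℝ^n` has rank at least `r`: composed with some linear map it is onto
`ℝ^r` -/
def RankAtLeast (r : ℕ) {n : ℕ} (L : R n →L[ℝ] R n) : Prop :=
  ∃ P : R n →L[ℝ] R r, Surjective (fun v => P (L v))

theorem RankAtLeast.le {r n : ℕ} {L : R n →L[ℝ] R n} (h : RankAtLeast r L) :
    r ≤ Module.finrank ℝ (LinearMap.range L.toLinearMap) := by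
  obtain ⟨P, hP⟩ := h
  have h4 : Surjective (P.toLinearMap ∘ₗ (LinearMap.range L.toLinearMap).subtype) := by
    intro w
    obtain ⟨v, hv⟩ := hP w
    exact ⟨⟨_, LinearMap.mem_range_self _ v⟩, hv⟩
  have h5 := LinearMap.finrank_le_finrank_of_surjective h4
  rwa [finrank_euclideanSpace, Fintype.card_fin] at h5

section defs

variable (n : ℕ) {X Y : Type} [TopologicalSpace X] [ChartedSpace (R n) X]
  [TopologicalSpace Y] [ChartedSpace (R n) Y]

/-- `f` is a smooth local diffeomorphism at `x` -/
def LocDiff (f : X → Y) (x : X) : Prop := IsLocalDiffeomorphAt (𝓡 n) (𝓡 n) ∞ f x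

/-- near `x` the fibres of `f` are countable -/
def CountableToOneNear (f : X → Y) (x : X) : Prop :=
  ∃ U ∈ 𝓝 x, ∀ y, (U ∩ f ⁻¹' {y}).Countable

/-- the Jacobian determinant of `f` does not change sign near `x`: it is nonnegative near `x` in
some smooth coordinates around `x` (the parametrization `A`) and around `f x` (the chart `B`) -/
def JacobianNonneg (f : X → Y) (x : X) : Prop :=
  ∃ (A : R n → X) (B : Y → R n), A 0 = x ∧ LocDiff n A 0 ∧ LocDiff n B (f x) ∧
    ∀ᶠ z in 𝓝 (0 : R n), 0 ≤ (fderiv ℝ (fun p => B (f (A p))) z).det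

/-- `φ` is a diffeomorphism -/
def IsDiffeo (φ : X → Y) : Prop := ∃ Φ : X ≃ₘ^∞⟮𝓡 n, 𝓡 n⟯ Y, ∀ x, Φ x = φ x

/-- `φ₀` and `φ₁` are joined by a smooth path of diffeomorphisms -/
def SmoothlyIsotopic (φ₀ φ₁ : X → Y) : Prop :=
  ∃ K : ℝ × X → Y, ContMDiff ((𝓘(ℝ, ℝ)).prod (𝓡 n)) (𝓡 n) ∞ K ∧
    (∀ t, IsDiffeo n (fun x => K (t, x))) ∧
    (∀ x, K (0, x) = φ₀ x) ∧ ∀ x, K (1, x) = φ₁ x

end defs

/-- Homotopies of closed manifolds through countable-to-one maps of corank at most one without folds
can be replaced by isotopies. -/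
theorem result (m : ℕ) (X Y : Type) [TopologicalSpace X] [T2Space X] [CompactSpace X]
    [ChartedSpace (R (m + 1)) X] [IsManifold (𝓡 (m + 1)) ∞ X]
    [TopologicalSpace Y] [T2Space Y] [ChartedSpace (R (m + 1)) Y] [IsManifold (𝓡 (m + 1)) ∞ Y]
    (f : ℝ × X → Y) (hf : ContMDiff ((𝓘(ℝ, ℝ)).prod (𝓡 (m + 1))) (𝓡 (m + 1)) ∞ f)
    (hr : ∀ t ∈ Icc (0 : ℝ) 1, ∀ x,
      RankAtLeast m (mfderiv (𝓡 (m + 1)) (𝓡 (m + 1)) (fun x => f (t, x)) x))
    (hn : ∀ t ∈ Icc (0 : ℝ) 1, ∀ x, LocDiff (m + 1) (fun x => f (t, x)) x ∨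
      (CountableToOneNear (fun x => f (t, x)) x ∧
        JacobianNonneg (m + 1) (fun x => f (t, x)) x))
    (h0 : IsDiffeo (m + 1) (fun x => f (0, x)))
    (h1 : ∀ x, LocDiff (m + 1) (fun x => f (1, x)) x) :
    IsDiffeo (m + 1) (fun x => f (1, x)) ∧
      SmoothlyIsotopic (m + 1) (fun x => f (0, x)) (fun x => f (1, x)) := by
  obtain ⟨Φ₀, e0⟩ := h0
  have e0' : (fun x => f (0, x)) = Φ₀ := funext fun x => (e0 x).symm
  have hs : ∀ t : ℝ, ContMDiff (𝓡 (m + 1)) (𝓡 (m + 1)) ∞ (fun x => f (t, x)) := fun t =>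
    hf.comp (contMDiff_const.prodMk contMDiff_id)
  have hb : ∀ t ∈ Icc (0 : ℝ) 1, Bijective (fun x => f (t, x)) := by
    intro t ht
    obtain ⟨F, hF⟩ : ∃ F : C(X, Y), ∀ x, F x = f (t, x) := ⟨⟨_, (hs t).continuous⟩, fun _ => rfl⟩
    obtain ⟨F0, hF0⟩ : ∃ F0 : C(X, Y), ∀ x, F0 x = f (0, x) :=
      ⟨⟨_, (hs 0).continuous⟩, fun _ => rfl⟩
    have hFf : (F : X → Y) = fun x => f (t, x) := funext hF
    have H : ContinuousMap.Homotopic F F0 := by
      have hc : Continuous (fun p : unitInterval × X => f (t * (1 - (p.1 : ℝ)), p.2)) := by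
        apply hf.continuous.comp
        fun_prop
      exact ⟨{ toFun := fun p => f (t * (1 - (p.1 : ℝ)), p.2)
               continuous_toFun := hc
               map_zero_left := fun x => by
                 change f (t * (1 - ((0 : unitInterval) : ℝ)), x) = F x
                 rw [hF, Set.Icc.coe_zero, sub_zero, mul_one]
               map_one_left := fun x => by
                 change f (t * (1 - ((1 : unitInterval) : ℝ)), x) = F0 x
                 rw [hF0, Set.Icc.coe_one, sub_self, mul_zero] }⟩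
    have hbF : Bijective F := by
      refine Pool.Agent.Q131.FT.bij_he (m := m) Φ₀.toHomeomorph F F0 (fun x => ?_) H (fun x => ?_)
      · rw [hF0]
        exact (e0 x).symm
      · rw [hFf]
        rcases hn t ht x with h | ⟨h2, h3⟩
        · exact Or.inl h
        · exact Or.inr (Or.inr ⟨Filter.Eventually.of_forall fun y =>
            ⟨(hs t).contMDiffAt, (hr t ht y).le⟩, h2, h3⟩)
    rwa [hFf] at hbF
  have h1' : IsLocalDiffeomorph (𝓡 (m + 1)) (𝓡 (m + 1)) ∞ (fun x => f (1, x)) := h1
  refine ⟨⟨h1'.diffeomorphOfBijective (hb 1 ⟨zero_le_one, le_rfl⟩), fun x => rfl⟩, ?_⟩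
  obtain ⟨K, k1, k2, k3, k4, k5⟩ := Pool.Agent.Y522.NA.coi_final m X Y f hf hb
    (fun t ht x => (hr t ht x).le)
    (fun x => by rw [e0']; exact Φ₀.isLocalDiffeomorph x)
    (fun x => h1 x)
  refine ⟨K, k1, fun t => ?_, k4, k5⟩
  have hl : IsLocalDiffeomorph (𝓡 (m + 1)) (𝓡 (m + 1)) ∞ (fun x => K (t, x)) := k3 t
  exact ⟨hl.diffeomorphOfBijective (k2 t), fun x => rfl⟩

end Pool.Agent.Results.MP_28b04d_gt.NoFoldIsotopy
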